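import Pool.Agent.H2.AV.Main

set_option autoImplicit false

namespace Pool.Agent.Results.MP_0f984e_lc.AverageCase

open Pool.Agent.H2.AV

/-- The exact exponent of the average-case complexity of Orthogonal Vectors for the machines of
`Pool.Agent.H2.AV.Defs`: `2n` random vectors in `{0,1}^d` whose bits are independent and equal to
`1` with probability `p`; the expected number `n ^ 2 * (1 - p ^ 2) ^ d` of orthogonal pairs is
between `1 / C` and `C`. A constant answer is correct with probability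
`max (prob yes) (1 - prob yes)`. -/
theorem result (p : ℝ) (h0 : 0 < p) (h1 : p < 1) :
    1 < alpha p ∧ alpha p < 2 ∧
    ∀ (C ε : ℝ) (K : ℕ), 1 ≤ C → 0 < ε → 1 ≤ K → ∃ c : ℝ, 0 < c ∧ ∃ n₀ : ℕ, ∀ n d : ℕ, n₀ ≤ n →
      1 / C ≤ (n : ℝ) ^ 2 * (1 - p ^ 2) ^ d → (n : ℝ) ^ 2 * (1 - p ^ 2) ^ d ≤ C →
      -- the probability of the answer yes
      |prob p (HasOrthogonalPair (n := n) (d := d)) -
        (1 - Real.exp (-((n : ℝ) ^ 2 * (1 - p ^ 2) ^ d)))| ≤ (n : ℝ) ^ (-c) ∧
      -- the lower bound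
      (∀ μ : PMF (Machine n d), (∀ M ∈ μ.support, M.Steps (n ^ K)) →
        ∑' M, μ M * (M.cost K : ENNReal) ≤ ENNReal.ofReal ((n : ℝ) ^ (alpha p - ε)) →
        ex p (fun x => (μ.toOuterMeasure {M | M.CorrectOn x}).toReal) ≤
          max (prob p (HasOrthogonalPair (n := n) (d := d)))
            (1 - prob p (HasOrthogonalPair (n := n) (d := d))) + (n : ℝ) ^ (-c)) ∧
      -- the upper bound
      (∃ M : Machine n d, M.Steps 2 ∧ (M.cost K : ℝ) ≤ (n : ℝ) ^ (alpha p + ε) ∧
        (∀ x, 0 < M.result x M.last → HasOrthogonalPair x) ∧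
        1 - (n : ℝ) ^ (-c) ≤ prob p M.CorrectOn) ∧
      -- the vectors of each list are distinct
      (p < 2 / 3 → 1 - (n : ℝ) ^ (-c) ≤
        prob p (fun x : Input n d => ∀ (s : Bool) (i j : Fin n), x (s, i) = x (s, j) → i = j)) :=
  main p h0 h1

end Pool.Agent.Results.MP_0f984e_lc.AverageCase
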