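import Mathlib
import Pool.Agent.H1.LP.Fin

set_option autoImplicit false

namespace Pool.Agent.Results.MP_0c9a68_nt.LocallyPretentious

/-- The sum over the primes `p` with `y < p ≤ x` of `(1 - Re (g(p) * conj (χ(p) p^{it}))) / p`.  For `y = 0` this
is the squared pretentious distance between `g` and `n ↦ χ(n) n^{it}` up to `x`. -/
noncomputable def distSq (g : ℕ → ℂ) {q : ℕ} (χ : DirichletCharacter ℂ q) (t y x : ℝ) : ℝ :=
  ∑ p ∈ Finset.filter Nat.Prime (Finset.Ioc ⌊y⌋₊ ⌊x⌋₊),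
    (1 - (g p * starRingEnd ℂ (χ (p : ZMod q) * (p : ℂ) ^ (Complex.I * (t : ℂ)))).re) / (p : ℝ)

/-- Correlations of 1-bounded multiplicative functions at a single scale `X`: one function `g i₀` is
arbitrary, the others agree up to `α` with `χ(n) n^{it}`, `|t| ≤ X`, on the primes of `(X ^ α, X]` (they are
arbitrary at the primes up to `X ^ α`), and for one of these the distance up to `X` is at least `D`. -/
theorem result (k : ℕ) (h : Fin k → ℤ) (hinj : Function.Injective h) {ε : ℝ} (hε : 0 < ε) :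
    ∃ α : ℝ, 0 < α ∧ ∀ Q : ℕ, ∃ (D : ℝ) (X₀ : ℕ), ∀ X : ℕ, X₀ ≤ X →
      ∀ (g : Fin k → ArithmeticFunction ℂ), (∀ i, (g i).IsMultiplicative) → (∀ i n, ‖g i n‖ ≤ 1) →
      ∀ (i₀ : Fin k) (q : Fin k → ℕ) (χ : ∀ i, DirichletCharacter ℂ (q i)) (t : Fin k → ℝ),
      (∀ i, i ≠ i₀ → 0 < q i ∧ q i ≤ Q ∧ |t i| ≤ X ∧
        distSq (fun n => g i n) (χ i) (t i) ((X : ℝ) ^ α) X ≤ α) →
      (∃ j, j ≠ i₀ ∧ D ≤ distSq (fun n => g j n) (χ j) (t j) 0 X) →
      ‖(1 / (X : ℂ)) * ∑ n ∈ Finset.Icc 1 X, ∏ i, g i ((n : ℤ) + h i).toNat‖ ≤ ε :=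
  Pool.Agent.H1.LP.partA k h hinj hε

end Pool.Agent.Results.MP_0c9a68_nt.LocallyPretentious
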