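import Mathlib
import Pool.Agent.H2.MT.Res

set_option autoImplicit false

open Filter MeasureTheory

namespace Pool.Agent.H2.Old.MetricAllCofactors

open Classical in
/-- `P` is thick: the sum of `1/p` over the primes `p ∈ P` with `log N < p ≤ N` tends to infinity
as `N → ∞`. -/
def Thick (P : Set ℕ) : Prop :=
  Tendsto (fun N : ℕ => ∑ p ∈ (Finset.Icc 1 N).filter
    (fun p => p.Prime ∧ p ∈ P ∧ Real.log N < p), (1 : ℝ) / p) atTop atTop

/-- Elliott's conjecture, metric form. `P` is a thick set of primes, `a p > 0` (`p ∈ P`) with `a p / p^κ`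
non-decreasing on `P`; `ψ p` (`p ∈ P`) are measurable `1`-periodic functions bounded by `1` with mean
zero over a period and `∫_0^1 |ψ p (x + h) - ψ p x| dx ≤ V |h|`; `v` and `D l` are fixed. For almost every
real `α`: for all `k`, places `j`, integer shifts `h` with `h x ≠ h j` for `x ≠ j` and all assignments `τ` of
fixed functions `D l` to some of the places, and for every `ε > 0` there is `N₀` such that for all
`N ≥ N₀` and all functions `G x` for which `G j` is 1-bounded multiplicative with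
`G j p = ψ p (α * a p)` for `p ∈ P` and `G j p = v p` for the other primes, `G x = D l` at the places `x` with
`τ x = some l` and `G x` is an arbitrary 1-bounded multiplicative function at all the other places,
the correlation up to `N` is at most `ε` in absolute value. -/
theorem result (P : Set ℕ) (hPp : ∀ p ∈ P, p.Prime) (hP : Thick P) (κ V : ℝ) (hκ : 0 < κ)
    (a : ℕ → ℝ) (ha : ∀ p ∈ P, 0 < a p)
    (hmono : ∀ p ∈ P, ∀ q ∈ P, p < q → a p / (p : ℝ) ^ κ ≤ a q / (q : ℝ) ^ κ)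
    (ψ : ℕ → ℝ → ℂ) (hψm : ∀ p ∈ P, Measurable (ψ p)) (hψb : ∀ p ∈ P, ∀ x, ‖ψ p x‖ ≤ 1)
    (hψp : ∀ p ∈ P, ∀ x, ψ p (x + 1) = ψ p x)
    (hψ0 : ∀ p ∈ P, ∫ x in (0 : ℝ)..1, ψ p x = 0)
    (hψV : ∀ p ∈ P, ∀ h : ℝ, ∫ x in (0 : ℝ)..1, ‖ψ p (x + h) - ψ p x‖ ≤ V * |h|)
    (v : ℕ → ℂ) (hv : ∀ p, ‖v p‖ ≤ 1)
    (D : ℕ → ArithmeticFunction ℂ) (hD : ∀ l n, ‖D l n‖ ≤ 1) :
    ∀ᵐ α : ℝ, ∀ (k : ℕ) (j : Fin k) (h : Fin k → ℤ) (τ : Fin k → Option ℕ),
      (∀ x, x ≠ j → h x ≠ h j) → ∀ ε : ℝ, 0 < ε → ∃ N₀ : ℕ, ∀ N : ℕ, N₀ ≤ N →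
      ∀ G : Fin k → ArithmeticFunction ℂ,
        (G j).IsMultiplicative → (∀ n, ‖G j n‖ ≤ 1) →
        (∀ p ∈ P, G j p = ψ p (α * a p)) → (∀ p, p.Prime → p ∉ P → G j p = v p) →
        (∀ x, x ≠ j → (∃ l, τ x = some l ∧ G x = D l) ∨
          (τ x = none ∧ (G x).IsMultiplicative ∧ ∀ n, ‖G x n‖ ≤ 1)) →
        ‖(1 / (N : ℂ)) * ∑ n ∈ Finset.Icc 1 N, ∏ x, G x ((n : ℤ) + h x).toNat‖ ≤ ε := by
  set E : Pool.H2.MT.Dat :=
    { P := P, κ := κ, V := V, a := a, ψ := ψ, v := v, prime := hPp, kpos := hκ, apos := ha,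
      grow := by
        intro p hp q hq hpq
        have hp0 : (0 : ℝ) < p := by exact_mod_cast (hPp p hp).pos
        have hq0 : (0 : ℝ) < q := by exact_mod_cast (hPp q hq).pos
        have h1 := hmono p hp q hq hpq
        rw [div_le_div_iff₀ (by positivity) (by positivity)] at h1
        rw [Real.div_rpow hq0.le hp0.le, div_mul_eq_mul_div, div_le_iff₀ (by positivity)]
        linarith
      osc := fun p hp => ⟨hψm p hp, hψb p hp, hψp p hp, hψ0 p hp, hψV p hp⟩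
      vbd := hv } with hE
  have key := Pool.H2.MT.resM E (by exact hP) D hD
  filter_upwards [key] with α hα k j h τ hne ε hε
  obtain ⟨N₀, hN₀⟩ := hα k j h τ hne ε hε
  refine ⟨N₀, fun N hN G hm hb hGP hGv hG => hN₀ N hN G hm hb ?_ hG⟩
  intro p hp
  unfold Pool.H2.MT.Dat.fv
  split_ifs with h1
  · exact hGP p h1
  · exact hGv p hp h1

end Pool.Agent.H2.Old.MetricAllCofactors
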