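import Mathlib
import Pool.Agent.H4.El.Fin
import Pool.Agent.H68.OF.SUt

set_option autoImplicit false

open Filter Topology MeasureTheory ProbabilityTheory

namespace Pool.Agent.Results.MP_050d88_nt.OneArbitraryFactor

/-- `f` is multiplicative on the positive integers, with values in the closed unit disc (the value
`f 0` plays no role). -/
def IsMult (f : ℕ → ℂ) : Prop :=
  f 1 = 1 ∧ (∀ m n : ℕ, 0 < m → 0 < n → Nat.Coprime m n → f (m * n) = f m * f n) ∧
    ∀ n : ℕ, 0 < n → ‖f n‖ ≤ 1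

open Classical in
/-- The set `X` of natural numbers has logarithmic density one. -/
def LogDensityOne (X : Set ℕ) : Prop :=
  Tendsto (fun x : ℕ => (∑ n ∈ (Finset.Icc 1 x).filter (fun n => n ∈ X), (1 : ℝ) / n) / Real.log x)
    atTop (𝓝 1)

/-- The average over `1 ≤ n ≤ x` of `F_0 (n + h_0) ⋯ F_k (n + h_k)`. -/
noncomputable def avg {k : ℕ} (F : Fin (k + 1) → ℕ → ℂ) (h : Fin (k + 1) → ℕ) (x : ℕ) : ℂ :=
  (1 / (x : ℂ)) * ∑ n ∈ Finset.Icc 1 x, ∏ i, F i (n + h i)

/-- The squared pretentious distance between `g` and `n ↦ χ(n) n^{it}` up to `x`. -/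
noncomputable def distSq (g : ℕ → ℂ) {q : ℕ} (χ : DirichletCharacter ℂ q) (t : ℝ) (x : ℕ) : ℝ :=
  ∑ p ∈ Finset.filter Nat.Prime (Finset.Iic x),
    (1 - (g p * starRingEnd ℂ (χ (p : ZMod q) * (p : ℂ) ^ (Complex.I * (t : ℂ)))).re) / (p : ℝ)

/-- `g` is slowly pretentious: for some Dirichlet character `χ` and real `t`, the increment of the
squared distance to `χ(n) n^{it}` over `(x, x^2]` tends to zero. -/
def SlowlyPretentious (g : ℕ → ℂ) : Prop :=
  ∃ (q : ℕ) (χ : DirichletCharacter ℂ q) (t : ℝ), 0 < q ∧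
    Tendsto (fun x : ℕ => distSq g χ t (x ^ 2) - distSq g χ t x) atTop (𝓝 0)

/-- `g` is non-pretentious: for every Dirichlet character `χ` and every real `t`, the distance
to `χ(n) n^{it}` tends to infinity. -/
def NonPretentious (g : ℕ → ℂ) : Prop :=
  ∀ (q : ℕ) (χ : DirichletCharacter ℂ q) (t : ℝ), 0 < q → Tendsto (distSq g χ t) atTop atTop

/-- All correlations of `g` with itself and its conjugate vanish: the averages over `n ≤ N` of
`∏ u_i(n + a_i)`, `u_i = g` or its conjugate, `a_i` distinct, tend to zero. -/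
def SelfUncorrelated (g : ℕ → ℂ) : Prop :=
  ∀ (r : ℕ) (a : Fin r → ℕ) (u : Fin r → Bool), 0 < r → Function.Injective a →
    Tendsto (fun N : ℕ => (1 / (N : ℂ)) * ∑ n ∈ Finset.Icc 1 N,
      ∏ i, (if u i then (starRingEnd ℂ) (g (n + a i)) else g (n + a i))) atTop (𝓝 0)

/-- All correlations of `f₁` with functions from the family `𝓕` and at most one further arbitrary
multiplicative function `F j` vanish along the scales `x ∈ X`. -/
def VanishAlong (f₁ : ℕ → ℂ) (𝓕 : Set (ℕ → ℂ)) (X : Set ℕ) : Prop :=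
  ∀ (k : ℕ) (h : Fin (k + 1) → ℕ), Function.Injective h →
    ∀ (j : Fin (k + 1)) (F : Fin (k + 1) → ℕ → ℂ), F 0 = f₁ → (∀ i, IsMult (F i)) →
      (∀ i, i ≠ 0 → i ≠ j → F i ∈ 𝓕) → Tendsto (avg F h) (atTop ⊓ 𝓟 X) (𝓝 0)

/-- The same, uniformly in the arbitrary multiplicative function `g` at the place `j`. -/
def VanishUniformlyAlong (f₁ : ℕ → ℂ) (𝓕 : Set (ℕ → ℂ)) (X : Set ℕ) : Prop :=
  ∀ (k : ℕ) (h : Fin (k + 1) → ℕ), Function.Injective h →
    ∀ (j : Fin (k + 1)) (F : Fin (k + 1) → ℕ → ℂ), j ≠ 0 → F 0 = f₁ →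
      (∀ i, i ≠ 0 → i ≠ j → F i ∈ 𝓕) → ∀ ε : ℝ, 0 < ε →
        ∃ x₀ : ℕ, ∀ x ∈ X, x₀ ≤ x → ∀ g : ℕ → ℂ, IsMult g →
          ‖avg (Function.update F j g) h x‖ ≤ ε

/-- For every countable family `𝓕` of multiplicative functions there is a set `X` of scales, of
logarithmic density one and depending only on `f₁` and `𝓕`, along which all correlations of `f₁`
with functions from `𝓕` and at most one arbitrary multiplicative function vanish. -/
def GoodScales (f₁ : ℕ → ℂ) : Prop :=
  ∀ 𝓕 : Set (ℕ → ℂ), 𝓕.Countable → (∀ f ∈ 𝓕, IsMult f) →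
    ∃ X : Set ℕ, LogDensityOne X ∧ VanishAlong f₁ 𝓕 X ∧ VanishUniformlyAlong f₁ 𝓕 X

open Classical in
/-- `P` is thick: the sum of `1/p` over the primes `p ∈ P` with `log N < p ≤ N` tends to infinity
as `N → ∞`. -/
def Thick (P : Set ℕ) : Prop :=
  Tendsto (fun N : ℕ => ∑ p ∈ (Finset.Icc 1 N).filter
    (fun p => p.Prime ∧ p ∈ P ∧ Real.log N < p), (1 : ℝ) / p) atTop atTop

/-- Good scales exist if `f₁` is
(1) a self-uncorrelated function,
(2) a slowly pretentious non-pretentious function,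
(3) almost every random multiplicative function with independent values at different primes and mean
zero at large primes (the family `𝓕` may depend on the random function),
(4) an arbitrary 1-bounded multiplicative `f` after almost every change of signs on a thick set of
primes. -/
theorem result :
    (∀ f₁ : ℕ → ℂ, IsMult f₁ → SelfUncorrelated f₁ → GoodScales f₁) ∧
    (∀ f₁ : ℕ → ℂ, IsMult f₁ → SlowlyPretentious f₁ → NonPretentious f₁ → GoodScales f₁) ∧
    (∀ {Ω : Type} [MeasurableSpace Ω] (μ : Measure Ω) [IsProbabilityMeasure μ]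
      (f : Ω → ArithmeticFunction ℂ), (∀ ω, (f ω).IsMultiplicative) → (∀ ω n, ‖f ω n‖ ≤ 1) →
      (∀ n, Measurable (fun ω => f ω n)) →
      iIndepFun (fun (p : Nat.Primes) (ω : Ω) (m : ℕ) => f ω ((p : ℕ) ^ m)) μ →
      (∀ᶠ p : ℕ in atTop, p.Prime → ∫ ω, f ω p ∂μ = 0) →
      ∀ᵐ ω ∂μ, GoodScales (fun n => f ω n)) ∧
    (∀ (P : Set ℕ), Thick P → ∀ f : ArithmeticFunction ℂ, f.IsMultiplicative → (∀ n, ‖f n‖ ≤ 1) →
      ∀ᵐ ω ∂(Measure.infinitePi (fun _ : ℕ => (PMF.uniformOfFintype Bool).toMeasure)),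
        ∀ r : ArithmeticFunction ℂ, r 1 = 1 → (∀ m n, r (m * n) = r m * r n) →
          (∀ p ∈ P, p.Prime → r p = if ω p then 1 else -1) → (∀ p ∉ P, p.Prime → r p = 1) →
          GoodScales (fun n => f n * r n)) := by
  classical
  have key : ∀ f₁ : ℕ → ℂ, IsMult f₁ → Pool.Agent.H68.OF.SU (Pool.Agent.H4.El.toA f₁) →
      GoodScales f₁ := by
    intro f₁ hf₁ hSU 𝓕 h𝓕 h𝓕m
    obtain ⟨X, hX, h1, h2⟩ := Pool.Agent.H4.El.fin f₁ hf₁ hSU 𝓕 h𝓕 h𝓕m
    refine ⟨X, hX, ?_, ?_⟩
    · intro k h hinj j F hF0 hFm hF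
      rw [Metric.tendsto_nhds]
      intro ε hε
      rw [eventually_inf_principal]
      have h3 : ∃ x₀ : ℕ, ∀ x ∈ X, x₀ ≤ x → ‖avg F h x‖ ≤ ε / 2 := by
        by_cases hj : j = 0
        · exact h2 k h hinj F hF0 (fun i hi => hF i hi (fun h' => hi (h'.trans hj))) (ε / 2)
            (half_pos hε)
        · obtain ⟨x₀, hx₀⟩ := h1 k h hinj j hj F hF0 hF (ε / 2) (half_pos hε)
          refine ⟨x₀, fun x hx hxx => ?_⟩
          have h4 := hx₀ x hx hxx (F j) (hFm j)
          rw [Function.update_eq_self] at h4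
          exact h4
      obtain ⟨x₀, hx₀⟩ := h3
      filter_upwards [eventually_ge_atTop x₀] with x hx hxX
      rw [dist_zero_right]
      exact lt_of_le_of_lt (hx₀ x hxX hx) (half_lt_self hε)
    · intro k h hinj j F hj hF0 hF ε hε
      exact h1 k h hinj j hj F hF0 hF ε hε
  refine ⟨?_, ?_, ?_, ?_⟩
  · intro f₁ hf₁ hs
    refine key f₁ hf₁ ?_
    intro r a u hr ha
    have hle : ∀ i, |a i| ≤ ∑ i, |a i| := fun i =>
      Finset.single_le_sum (f := fun i => |a i|) (fun _ _ => abs_nonneg _) (Finset.mem_univ i)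
    have hnn : ∀ i, 0 ≤ a i + ∑ i, |a i| := fun i => by
      have h1 := hle i
      have h2 := neg_abs_le (a i)
      linarith
    have ht : ∀ i, a i = ((a i + ∑ i, |a i|).toNat : ℕ) + (-∑ i, |a i|) := fun i => by
      rw [Int.toNat_of_nonneg (hnn i)]
      ring
    have hinj : Function.Injective (fun i => (a i + ∑ i, |a i|).toNat) := by
      intro i j hij
      apply ha
      simp only at hij
      have h1 := hnn i
      have h2 := hnn j
      omega
    set G : Fin r → ArithmeticFunction ℂ := fun i =>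
      if u i then Pool.Agent.H4.El.cj (Pool.Agent.H4.El.toA f₁) else Pool.Agent.H4.El.toA f₁ with hG
    have hGb : ∀ i n, ‖G i n‖ ≤ 1 := by
      intro i n
      simp only [hG]
      split_ifs
      · exact Pool.Agent.H4.El.cj_bdd _ (Pool.Agent.H4.El.toA_bdd hf₁) n
      · exact Pool.Agent.H4.El.toA_bdd hf₁ n
    have h1 := hs r (fun i => (a i + ∑ i, |a i|).toNat) u hr hinj
    have h2 : Tendsto (fun N : ℕ => Pool.Agent.H68.OF.corN G (fun i => (a i + ∑ i, |a i|).toNat) N)
        atTop (𝓝 0) := by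
      refine h1.congr fun N => ?_
      unfold Pool.Agent.H68.OF.corN
      congr 1
      apply Finset.sum_congr rfl
      intro n hn
      rw [Finset.mem_Icc] at hn
      apply Finset.prod_congr rfl
      intro i _
      simp only [hG]
      split_ifs
      · rw [Pool.Agent.H4.El.cj_apply, Pool.Agent.H4.El.toA_pos _ (by omega)]
      · rw [Pool.Agent.H4.El.toA_pos _ (by omega)]
    have h3 : Tendsto (fun N : ℕ => Pool.Agent.H68.OF.cor G a N
        - Pool.Agent.H68.OF.corN G (fun i => (a i + ∑ i, |a i|).toNat) N) atTop (𝓝 0) := by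
      have h4 : Tendsto (fun N : ℕ => 2 * |((-∑ i, |a i| : ℤ) : ℝ)| / (N : ℝ)) atTop (𝓝 0) :=
        tendsto_const_div_atTop_nhds_zero_nat _
      refine squeeze_zero_norm' ?_ h4
      filter_upwards [eventually_gt_atTop 0] with N hN
      exact Pool.Agent.H68.OF.cor_shift G hGb a _ _ ht N hN
    have h5 := h3.add h2
    rw [add_zero] at h5
    refine h5.congr fun N => ?_
    rw [sub_add_cancel]
    unfold Pool.Agent.H68.OF.cor
    congr 1
    apply Finset.sum_congr rfl
    intro n _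
    apply Finset.prod_congr rfl
    intro i _
    simp only [hG]
    split_ifs
    · rfl
    · rfl
  · intro f₁ hf₁ hs hn
    have hdist : ∀ {q : ℕ} (χ : DirichletCharacter ℂ q) (t : ℝ) (x : ℕ), distSq f₁ χ t x
        = Pool.H2.Ell.dist2 (fun n => Pool.Agent.H4.El.toA f₁ n) χ t x := by
      intro q χ t x
      unfold distSq Pool.H2.Ell.dist2
      apply Finset.sum_congr rfl
      intro p hp
      rw [Finset.mem_filter] at hp
      have h1 := Pool.Agent.H4.El.toA_pos f₁ hp.2.pos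
      simp only [h1]
    refine key f₁ hf₁ (Pool.Agent.H68.OF.su_slow _ (Pool.Agent.H4.El.toA_mult hf₁)
      (Pool.Agent.H4.El.toA_bdd hf₁) ?_ ?_)
    · obtain ⟨q, χ, t, hq, h1⟩ := hs
      refine ⟨q, χ, t, hq, ?_⟩
      refine h1.congr fun x => ?_
      rw [hdist, hdist]
    · intro q χ t hq
      refine (hn q χ t hq).congr fun x => ?_
      rw [hdist]
  · intro Ω _ μ _ f hmul hbd hmeas hind hmean
    filter_upwards [Pool.Agent.H68.OF.su_rand μ f hmul hbd hmeas hind hmean] with ω hω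
    refine key _ (Pool.Agent.H4.El.isMult_coe (hmul ω) (hbd ω)) ?_
    rw [Pool.Agent.H4.El.toA_coe]
    exact hω
  · intro P hP f hf hfb
    filter_upwards [Pool.Agent.H68.OF.su_twist P hP f hf hfb] with ω hω
    intro r h1 hm hin hout
    have h2 := hω r h1 hm hin hout
    have h3 := Pool.Agent.H68.OF.sut_norm f r hfb P ω h1 hm hin hout
    have h4 : (f.pmul r).IsMultiplicative := by
      refine hf.pmul ⟨h1, fun {m n} _ => hm m n⟩
    have h5 := key (fun n => (f.pmul r) n) (Pool.Agent.H4.El.isMult_coe h4 h3)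
      (by rw [Pool.Agent.H4.El.toA_coe]; exact h2)
    exact h5

end Pool.Agent.Results.MP_050d88_nt.OneArbitraryFactor
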