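import Mathlib
import Pool.Agent.H68.OF.Main
import Pool.Agent.H68.OF.SUt

set_option autoImplicit false

open Filter Topology MeasureTheory ProbabilityTheory

namespace Pool.Agent.Results.MP_0c9a68_nt.OneFactor

/-- The squared pretentious distance between `g` and `n ↦ χ(n) n^{it}` up to `x`. -/
noncomputable def distSq (g : ℕ → ℂ) {q : ℕ} (χ : DirichletCharacter ℂ q) (t : ℝ) (x : ℕ) : ℝ :=
  ∑ p ∈ Finset.filter Nat.Prime (Finset.Iic x),
    (1 - (g p * starRingEnd ℂ (χ (p : ZMod q) * (p : ℂ) ^ (Complex.I * (t : ℂ)))).re) / (p : ℝ)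

/-- `g` is slowly pretentious: for some Dirichlet character `χ` and real `t`, the increment of the
squared distance to `χ(n) n^{it}` over `(x, x^2]` tends to zero. -/
def SlowlyPretentious (g : ℕ → ℂ) : Prop :=
  ∃ (q : ℕ) (χ : DirichletCharacter ℂ q) (t : ℝ), 0 < q ∧
    Tendsto (fun x : ℕ => distSq g χ t (x ^ 2) - distSq g χ t x) atTop (𝓝 0)

/-- `g` is non-pretentious: for every Dirichlet character `χ` and every fixed real `t`, the distance
to `χ(n) n^{it}` tends to infinity. -/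
def NonPretentious (g : ℕ → ℂ) : Prop :=
  ∀ (q : ℕ) (χ : DirichletCharacter ℂ q) (t : ℝ), 0 < q → Tendsto (distSq g χ t) atTop atTop

/-- All correlations of `g` with itself and its conjugate vanish: the averages over `n ≤ N` of
`∏ u_i(n + a_i)`, `u_i = g` or its conjugate, `a_i` distinct, tend to zero. -/
def SelfUncorrelated (g : ArithmeticFunction ℂ) : Prop :=
  ∀ (r : ℕ) (a : Fin r → ℤ) (u : Fin r → Bool), 0 < r → Function.Injective a →
    Tendsto (fun N : ℕ => (1 / (N : ℂ)) * ∑ n ∈ Finset.Icc 1 N,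
      ∏ i, (if u i then (starRingEnd ℂ) (g ((n : ℤ) + a i).toNat) else g ((n : ℤ) + a i).toNat))
      atTop (𝓝 0)

/-- The average over `n ≤ Z` of `∏ G_i(n + h_i)` (`G_i` extended by zero). -/
noncomputable def avg {k : ℕ} (G : Fin k → ArithmeticFunction ℂ) (h : Fin k → ℤ) (Z : ℕ) : ℂ :=
  (1 / (Z : ℂ)) * ∑ n ∈ Finset.Icc 1 Z, ∏ i, G i ((n : ℤ) + h i).toNat

/-- `G` is a tuple of 1-bounded multiplicative functions whose zeroth entry is `g`. -/
def Tuple (g : ArithmeticFunction ℂ) {k : ℕ} (G : Fin (k + 1) → ArithmeticFunction ℂ) : Prop :=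
  G 0 = g ∧ (∀ i, (G i).IsMultiplicative) ∧ ∀ i n, ‖G i n‖ ≤ 1

/-- Elliott's conjecture at almost all scales for all tuples containing `g`, uniformly in all the
other functions: for every `k` and all integer shifts with `h j ≠ h 0` for `j ≠ 0`,
(a) in every long window `(X/K, X]` the logarithmic mean of `|avg|` is small, for all large `X`;
(b) the logarithmic averages tend to zero;
(c) at all large scales `|avg|` is bounded by a constant `< 1`. -/
def ElliottAlmostAllScales (g : ArithmeticFunction ℂ) : Prop :=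
  ∀ (k : ℕ) (h : Fin (k + 1) → ℤ), (∀ j, j ≠ 0 → h j ≠ h 0) →
    (∀ ε : ℝ, 0 < ε → ∃ K₀ : ℝ, ∀ K : ℝ, K₀ ≤ K → ∃ X₀ : ℕ, ∀ X : ℕ, X₀ ≤ X →
      ∀ G : Fin (k + 1) → ArithmeticFunction ℂ, Tuple g G →
      ∑ Z ∈ (Finset.Icc 1 X).filter (fun Z : ℕ => (X : ℝ) / K < Z), ‖avg G h Z‖ / Z
        ≤ ε * Real.log K) ∧
    (∀ ε : ℝ, 0 < ε → ∃ X₀ : ℕ, ∀ X : ℕ, X₀ ≤ X →
      ∀ G : Fin (k + 1) → ArithmeticFunction ℂ, Tuple g G →
      ‖∑ n ∈ Finset.Icc 1 X, (∏ i, G i ((n : ℤ) + h i).toNat) / (n : ℂ)‖ ≤ ε * Real.log X) ∧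
    (∃ δ : ℝ, 0 < δ ∧ ∃ X₀ : ℕ, ∀ X : ℕ, X₀ ≤ X →
      ∀ G : Fin (k + 1) → ArithmeticFunction ℂ, Tuple g G → ‖avg G h X‖ ≤ 1 - δ)

open Classical in
/-- `P` is thick: the sum of `1/p` over the primes `p ∈ P` with `log N < p ≤ N` tends to infinity
as `N → ∞`. -/
def Thick (P : Set ℕ) : Prop :=
  Tendsto (fun N : ℕ => ∑ p ∈ (Finset.Icc 1 N).filter
    (fun p => p.Prime ∧ p ∈ P ∧ Real.log N < p), (1 : ℝ) / p) atTop atTop

/-- Elliott's conjecture at almost all scales holds for all tuples containing one of the following: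
(1) a self-uncorrelated function,
(2) a slowly pretentious non-pretentious function,
(3) almost every random multiplicative function with independent values at different primes and mean
zero at large primes,
(4) an arbitrary 1-bounded multiplicative `f` after almost every change of signs on a thick set of
primes. -/
theorem result :
    (∀ g : ArithmeticFunction ℂ, g.IsMultiplicative → (∀ n, ‖g n‖ ≤ 1) →
      SelfUncorrelated g → ElliottAlmostAllScales g) ∧
    (∀ g : ArithmeticFunction ℂ, g.IsMultiplicative → (∀ n, ‖g n‖ ≤ 1) →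
      SlowlyPretentious (fun n => g n) → NonPretentious (fun n => g n) →
      ElliottAlmostAllScales g) ∧
    (∀ {Ω : Type} [MeasurableSpace Ω] (μ : Measure Ω) [IsProbabilityMeasure μ]
      (f : Ω → ArithmeticFunction ℂ), (∀ ω, (f ω).IsMultiplicative) → (∀ ω n, ‖f ω n‖ ≤ 1) →
      (∀ n, Measurable (fun ω => f ω n)) →
      iIndepFun (fun (p : Nat.Primes) (ω : Ω) (m : ℕ) => f ω ((p : ℕ) ^ m)) μ →
      (∀ᶠ p : ℕ in atTop, p.Prime → ∫ ω, f ω p ∂μ = 0) →
      ∀ᵐ ω ∂μ, ElliottAlmostAllScales (f ω)) ∧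
    (∀ (P : Set ℕ), Thick P → ∀ f : ArithmeticFunction ℂ, f.IsMultiplicative → (∀ n, ‖f n‖ ≤ 1) →
      ∀ᵐ ω ∂(Measure.infinitePi (fun _ : ℕ => (PMF.uniformOfFintype Bool).toMeasure)),
        ∀ r : ArithmeticFunction ℂ, r 1 = 1 → (∀ m n, r (m * n) = r m * r n) →
          (∀ p ∈ P, p.Prime → r p = if ω p then 1 else -1) → (∀ p ∉ P, p.Prime → r p = 1) →
          ElliottAlmostAllScales (f.pmul r)) := by
  have key : ∀ g : ArithmeticFunction ℂ, (∀ n, ‖g n‖ ≤ 1) →
      Pool.Agent.H68.OF.SU g → ElliottAlmostAllScales g := by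
    intro g hbd hSU k h hne
    obtain ⟨h1, h2, h3⟩ := Pool.Agent.H68.OF.main g hbd hSU k h hne
    refine ⟨fun ε hε => ?_, fun ε hε => ?_, ?_⟩
    · obtain ⟨K₀, hK⟩ := h1 ε hε
      refine ⟨K₀, fun K hKK => ?_⟩
      obtain ⟨X₀, hX⟩ := hK K hKK
      exact ⟨X₀, fun X hXX G hG => hX X hXX G hG.1 hG.2.1 hG.2.2⟩
    · obtain ⟨X₀, hX⟩ := h2 ε hε
      exact ⟨X₀, fun X hXX G hG => hX X hXX G hG.1 hG.2.1 hG.2.2⟩
    · obtain ⟨δ, hδ, X₀, hX⟩ := h3
      exact ⟨δ, hδ, X₀, fun X hXX G hG => hX X hXX G hG.1 hG.2.1 hG.2.2⟩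
  refine ⟨fun g _ hbd hSU => key g hbd hSU, fun g hmul hbd hs hn => key g hbd ?_, ?_, ?_⟩
  · exact Pool.Agent.H68.OF.su_slow g hmul hbd hs hn
  · intro Ω _ μ _ f hmul hbd hmeas hind hmean
    filter_upwards [Pool.Agent.H68.OF.su_rand μ f hmul hbd hmeas hind hmean] with ω hω
    exact key (f ω) (hbd ω) hω
  · intro P hP f hf hfb
    filter_upwards [Pool.Agent.H68.OF.su_twist P hP f hf hfb] with ω hω
    intro r h1 hm hin hout
    exact key (f.pmul r) (Pool.Agent.H68.OF.sut_norm f r hfb P ω h1 hm hin hout)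
      (hω r h1 hm hin hout)

end Pool.Agent.Results.MP_0c9a68_nt.OneFactor
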