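import Mathlib
import Pool.Agent.H2.EL.ResB

set_option autoImplicit false

open Filter Topology MeasureTheory ProbabilityTheory

namespace Pool.Agent.Results.MP_0c9a68_nt.RandomAllCofactors

open Classical in
/-- `P` is thick: the sum of `1/p` over the primes `p ∈ P` with `log N < p ≤ N` tends to infinity
as `N → ∞`. -/
def Thick (P : Set ℕ) : Prop :=
  Tendsto (fun N : ℕ => ∑ p ∈ (Finset.Icc 1 N).filter
    (fun p => p.Prime ∧ p ∈ P ∧ Real.log N < p), (1 : ℝ) / p) atTop atTop

/-- Elliott's conjecture with one random factor, all other multiplicative factors arbitrary, at all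
scales. `F i` (`i ∈ ι`, `ι` countable) are random 1-bounded multiplicative functions on a probability space
such that the data `(F i (p^m))_{i, m}` at the different primes `p` are independent and `F i p` has mean
zero for the primes `p` of a thick set `P i`; `D l` (`l ∈ ℕ`) are fixed 1-bounded functions. For `ω`
outside one null set: for all `k`, all places `j`, all `i`, all integer shifts `h` with `h x ≠ h j` for
`x ≠ j` and all assignments `τ` of fixed functions to some of the places, and for every `ε > 0` there is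
`N₀` such that for `N ≥ N₀` the correlation up to `N` of `F i ω` (place `j`), of the fixed functions
`D l` (places `x` with `τ x = some l`) and of arbitrary 1-bounded multiplicative functions (all the other
places) is at most `ε` in absolute value. -/
theorem result {Ω : Type} [MeasurableSpace Ω] (μ : Measure Ω) [IsProbabilityMeasure μ]
    {ι : Type} [Countable ι] (F : ι → Ω → ArithmeticFunction ℂ)
    (hmul : ∀ i ω, (F i ω).IsMultiplicative) (hbd : ∀ i ω n, ‖F i ω n‖ ≤ 1)
    (hmeas : ∀ i n, Measurable (fun ω => F i ω n))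
    (hind : iIndepFun (fun (p : Nat.Primes) (ω : Ω) (x : ι × ℕ) => F x.1 ω ((p : ℕ) ^ x.2)) μ)
    (P : ι → Set ℕ) (hP : ∀ i, Thick (P i))
    (hmean : ∀ i, ∀ p ∈ P i, p.Prime → ∫ ω, F i ω p ∂μ = 0)
    (D : ℕ → ArithmeticFunction ℂ) (hD : ∀ l n, ‖D l n‖ ≤ 1) :
    ∀ᵐ ω ∂μ, ∀ (k : ℕ) (j : Fin k) (i : ι) (h : Fin k → ℤ) (τ : Fin k → Option ℕ),
      (∀ x, x ≠ j → h x ≠ h j) → ∀ ε : ℝ, 0 < ε → ∃ N₀ : ℕ, ∀ N : ℕ, N₀ ≤ N →
      ∀ G : Fin k → ArithmeticFunction ℂ, G j = F i ω →
        (∀ x, x ≠ j → (∃ l, τ x = some l ∧ G x = D l) ∨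
          (τ x = none ∧ (G x).IsMultiplicative ∧ ∀ n, ‖G x n‖ ≤ 1)) →
        ‖(1 / (N : ℂ)) * ∑ n ∈ Finset.Icc 1 N, ∏ x, G x ((n : ℤ) + h x).toNat‖ ≤ ε :=
  Pool.H2.EL.resB ⟨hmul, hbd, hmeas, hind⟩ P hP hmean D hD

end Pool.Agent.Results.MP_0c9a68_nt.RandomAllCofactors
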