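import Mathlib
import Pool.Agent.H2.RandFinal

set_option autoImplicit false

open Filter Topology MeasureTheory ProbabilityTheory

namespace Pool.H2.Old.RandomFactor

/-- Elliott's conjecture with a random multiplicative factor. `F i` (`i ∈ ι`, `ι` countable) are
random 1-bounded multiplicative functions on a probability space such that the data
`(F i (p^m))_{i, m}` at the different primes `p` are independent and `F i p` has mean zero for all
large primes `p`; `D l` (`l ∈ ℕ`) are fixed 1-bounded functions. Almost surely, for all tuples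
`g` in which one entry `g i₀` is an arbitrary 1-bounded multiplicative function (it may depend on
`ω`), every other entry is some `F i` or some `D l`, and at least one entry other than `g i₀` is
some `F i`, and for all distinct shifts, the unweighted correlations tend to zero. -/
theorem result {Ω : Type} [MeasurableSpace Ω] (μ : Measure Ω) [IsProbabilityMeasure μ]
    {ι : Type} [Countable ι] (F : ι → Ω → ArithmeticFunction ℂ)
    (hmul : ∀ i ω, (F i ω).IsMultiplicative) (hbd : ∀ i ω n, ‖F i ω n‖ ≤ 1)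
    (hmeas : ∀ i n, Measurable (fun ω => F i ω n))
    (hind : iIndepFun (fun (p : Nat.Primes) (ω : Ω) (x : ι × ℕ) => F x.1 ω ((p : ℕ) ^ x.2)) μ)
    (hmean : ∀ i, ∀ᶠ p : ℕ in atTop, p.Prime → ∫ ω, F i ω p ∂μ = 0)
    (D : ℕ → ArithmeticFunction ℂ) (hD : ∀ l n, ‖D l n‖ ≤ 1) :
    ∀ᵐ ω ∂μ, ∀ (k : ℕ) (g : Fin k → ArithmeticFunction ℂ) (i₀ : Fin k),
      (g i₀).IsMultiplicative → (∀ n, ‖g i₀ n‖ ≤ 1) →
      (∀ j, j ≠ i₀ → (∃ i, g j = F i ω) ∨ (∃ l, g j = D l)) →
      (∃ j, j ≠ i₀ ∧ ∃ i, g j = F i ω) →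
      ∀ h : Fin k → ℤ, Function.Injective h →
      Tendsto (fun N : ℕ => (1 / (N : ℂ)) * ∑ n ∈ Finset.Icc 1 N, ∏ i, g i ((n : ℤ) + h i).toNat)
        atTop (𝓝 0) :=
  Pool.H2.Rand.mainR ⟨hmul, hbd, hmeas, hind⟩ hmean D hD

end Pool.H2.Old.RandomFactor
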