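import Mathlib
import Pool.Agent.H2.EllMainA

set_option autoImplicit false

open Filter Topology

namespace Pool.Agent.Results.MP_0c9a68_nt.RangeSharp

/-- Condition (N) with the range `|t| ≤ X` replaced by `|t| ≤ ψ(X)`: for every Dirichlet character `χ`
the infimum over `|t| ≤ ψ(X)` of the squared pretentious distance up to `X` between `g` and
`n ↦ χ(n) n^{it}` tends to infinity with `X`. -/
def NRange (ψ : ℝ → ℝ) (g : ℕ → ℂ) : Prop :=
  ∀ (q : ℕ) (χ : DirichletCharacter ℂ q), 0 < q →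
    ∀ M : ℝ, ∃ X₀ : ℝ, ∀ X : ℝ, X₀ ≤ X → ∀ t : ℝ, |t| ≤ ψ X →
      M ≤ ∑ p ∈ Finset.filter Nat.Prime (Finset.Iic ⌊X⌋₊),
        (1 - (g p * starRingEnd ℂ (χ (p : ZMod q) * (p : ℂ) ^ (Complex.I * (t : ℂ)))).re) / (p : ℝ)

/-- For every `ψ(X) = X^{o(1)}` there is a completely multiplicative unimodular `g` that satisfies (N)
in the range `|t| ≤ ψ(X)`, while along a sequence `x_m` both the plain and the logarithmic averages of
`g(n) * conj g(n+1)` over `n ≤ x_m` tend to `1`. -/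
theorem result (ψ : ℝ → ℝ) (hψ : ∀ ε : ℝ, 0 < ε → ∀ᶠ X in atTop, ψ X ≤ X ^ ε) :
    ∃ (g : ArithmeticFunction ℂ) (x : ℕ → ℕ),
      g 1 = 1 ∧ (∀ m n, g (m * n) = g m * g n) ∧ (∀ n, 0 < n → ‖g n‖ = 1) ∧
      NRange ψ (fun n => g n) ∧
      StrictMono x ∧
      Tendsto (fun m => (∑ n ∈ Finset.Icc 1 (x m), g n * starRingEnd ℂ (g (n + 1))) / (x m : ℂ))
        atTop (𝓝 1) ∧
      Tendsto (fun m => (∑ n ∈ Finset.Icc 1 (x m), g n * starRingEnd ℂ (g (n + 1)) / (n : ℂ))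
        / (∑ n ∈ Finset.Icc 1 (x m), (1 : ℂ) / (n : ℂ))) atTop (𝓝 1) :=
  Pool.H2.Ell.mainA ψ hψ

end Pool.Agent.Results.MP_0c9a68_nt.RangeSharp
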