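import Mathlib
import Pool.Agent.H2.EL.E050

set_option autoImplicit false

open Filter Topology

namespace Pool.Agent.Results.MP_050d88_nt.SlowFactorAllScales

/-- `f` is multiplicative on the positive integers, with values in the closed unit disc (the value
`f 0` plays no role). -/
def IsMult (f : ℕ → ℂ) : Prop :=
  f 1 = 1 ∧ (∀ m n : ℕ, 0 < m → 0 < n → Nat.Coprime m n → f (m * n) = f m * f n) ∧
    ∀ n : ℕ, 0 < n → ‖f n‖ ≤ 1

/-- The average over `1 ≤ n ≤ x` of `F_0 (n + h_0) ⋯ F_k (n + h_k)`. -/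
noncomputable def avg {k : ℕ} (F : Fin (k + 1) → ℕ → ℂ) (h : Fin (k + 1) → ℕ) (x : ℕ) : ℂ :=
  (1 / (x : ℂ)) * ∑ n ∈ Finset.Icc 1 x, ∏ i, F i (n + h i)

/-- The squared pretentious distance between `g` and `n ↦ χ(n) n^{it}` up to `x`. -/
noncomputable def distSq (g : ℕ → ℂ) {q : ℕ} (χ : DirichletCharacter ℂ q) (t : ℝ) (x : ℕ) : ℝ :=
  ∑ p ∈ Finset.filter Nat.Prime (Finset.Iic x),
    (1 - (g p * starRingEnd ℂ (χ (p : ZMod q) * (p : ℂ) ^ (Complex.I * (t : ℂ)))).re) / (p : ℝ)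

/-- Q1 holds for `f₁` with all of `ℕ` as the set of scales, uniformly in all the other functions: for
all natural shifts with `h i ≠ h 0` for `i ≠ 0` and every `ε > 0` there is `x₀` such that for `x ≥ x₀` the
average is at most `ε` for ALL multiplicative `F_1, …, F_k`. -/
def HoldsAtAllScales (f₁ : ℕ → ℂ) : Prop :=
  ∀ (k : ℕ) (h : Fin (k + 1) → ℕ), (∀ i, i ≠ 0 → h i ≠ h 0) → ∀ ε : ℝ, 0 < ε →
    ∃ x₀ : ℕ, ∀ x : ℕ, x₀ ≤ x → ∀ F : Fin (k + 1) → ℕ → ℂ, F 0 = f₁ → (∀ i, IsMult (F i)) →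
      ‖avg F h x‖ ≤ ε

/-- Q1 holds with `𝒳 = ℕ` for every `f₁` such that for some Dirichlet character `χ` and real `t` the
distance to `χ(n) n^{it}` tends to infinity and the increment of its square over `(x, x^2]` tends to
zero. -/
theorem result (f₁ : ℕ → ℂ) (hf : IsMult f₁) (q : ℕ) (χ : DirichletCharacter ℂ q) (t : ℝ)
    (hq : 0 < q) (hdist : Tendsto (distSq f₁ χ t) atTop atTop)
    (hslow : Tendsto (fun x : ℕ => distSq f₁ χ t (x ^ 2) - distSq f₁ χ t x) atTop (𝓝 0)) :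
    HoldsAtAllScales f₁ := by
  have h0 : ∀ x : ℕ, Pool.Agent.H1.LP.distSq f₁ χ t 0 x = distSq f₁ χ t x := by
    intro x
    unfold Pool.Agent.H1.LP.distSq distSq
    rw [Nat.floor_zero, Nat.floor_natCast]
    refine Finset.sum_congr ?_ fun _ _ => rfl
    ext p
    simp only [Finset.mem_filter, Finset.mem_Ioc, Finset.mem_Iic]
    constructor
    · rintro ⟨⟨_, h⟩, hp⟩; exact ⟨h, hp⟩
    · rintro ⟨h, hp⟩; exact ⟨⟨hp.pos, h⟩, hp⟩
  have h1 : ∀ x : ℕ, Pool.Agent.H1.LP.distSq f₁ χ t x ((x : ℝ) ^ 2) =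
      distSq f₁ χ t (x ^ 2) - distSq f₁ χ t x := by
    intro x
    rw [eq_sub_iff_add_eq]
    unfold Pool.Agent.H1.LP.distSq distSq
    rw [Nat.floor_natCast, show ((x : ℝ) ^ 2) = ((x ^ 2 : ℕ) : ℝ) by push_cast; rfl,
      Nat.floor_natCast, add_comm, ← Finset.sum_union]
    · refine Finset.sum_congr ?_ fun _ _ => rfl
      have hx : x ≤ x ^ 2 := Nat.le_self_pow two_ne_zero x
      ext p
      simp only [Finset.mem_union, Finset.mem_filter, Finset.mem_Ioc, Finset.mem_Iic]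
      constructor
      · rintro (⟨h, hp⟩ | ⟨⟨_, h⟩, hp⟩)
        · exact ⟨h.trans hx, hp⟩
        · exact ⟨h, hp⟩
      · rintro ⟨h, hp⟩
        rcases le_or_gt p x with h' | h'
        · exact Or.inl ⟨h', hp⟩
        · exact Or.inr ⟨⟨h', h⟩, hp⟩
    · rw [Finset.disjoint_left]
      intro p hp hp'
      simp only [Finset.mem_filter, Finset.mem_Ioc, Finset.mem_Iic] at hp hp'
      omega
  exact Pool.H2.EL.slow050 f₁ hf q χ t hq (hslow.congr fun x => (h1 x).symm)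
    (hdist.congr fun x => (h0 x).symm)

end Pool.Agent.Results.MP_050d88_nt.SlowFactorAllScales
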