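import Pool.Agent.H2.LP.Fin

/-!
Two-sided `L^p` lower bounds, for every `p > 1`, for the error term of the number of primes in short
intervals.  For every real `p > 1` there are `c > 0` and `X₀` such that for both signs `σ`:
(i) for all integers `X` and `X₀ ≤ H ≤ X ^ ((min p 2 - 1) / 20)` and every `M` on `[X, 2X]` which is
monotone, antitone or of total variation at most `X ^ (2 / 3)`, and for which
`σ * ∑ (π(n, H) - M n) ≥ 0`, the sum of `(max 0 (σ * (π(n, H) - M n))) ^ p` over `X < n ≤ 2X` is at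
least `c * X * ((H log H) ^ (1 / 2) / log X) ^ p`;
(ii) for `0 < ε ≤ min (1 / 1000) ((min p 2 - 1) / 20)` and all large `X` there is an integer `Y` in
`[X ^ (1 - 60 ε), X]` such that the same lower bound holds on `(Y, 2Y]` for `M n = H / log n`, for
all integers `X₀ ≤ H ≤ Y ^ ε` at once.
Here `π(n, H)` is the number of primes in `(n, n + H]`.
-/

namespace Pool.Agent.Results.MP_31d0eb_nt.TwoSidedError

open Finset

theorem result (p : ℝ) (hp : 1 < p) : ∃ c : ℝ, 0 < c ∧ ∃ X₀ : ℕ, ∀ σ : ℝ, σ = 1 ∨ σ = -1 →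
    (∀ X H : ℕ, X₀ ≤ H → (H : ℝ) ≤ (X : ℝ) ^ ((min p 2 - 1) / 20) → ∀ M : ℕ → ℝ,
      (MonotoneOn M (Set.Icc X (2 * X)) ∨ AntitoneOn M (Set.Icc X (2 * X)) ∨
        ∑ n ∈ Ico X (2 * X), |M (n + 1) - M n| ≤ (X : ℝ) ^ (2 / 3 : ℝ)) →
      0 ≤ σ * ∑ n ∈ Ioc X (2 * X), ((((Ioc n (n + H)).filter Nat.Prime).card : ℝ) - M n) →
      c * X * (Real.sqrt (H * Real.log H) / Real.log X) ^ p ≤ ∑ n ∈ Ioc X (2 * X),
        (max 0 (σ * ((((Ioc n (n + H)).filter Nat.Prime).card : ℝ) - M n))) ^ p) ∧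
    (∀ ε : ℝ, 0 < ε → ε ≤ 1 / 1000 → ε ≤ (min p 2 - 1) / 20 → ∃ X₁ : ℕ, ∀ X : ℕ, X₁ ≤ X →
      ∃ Y : ℕ, (X : ℝ) ^ (1 - 60 * ε) ≤ Y ∧ Y ≤ X ∧ ∀ H : ℕ, X₀ ≤ H → (H : ℝ) ≤ (Y : ℝ) ^ ε →
        c * Y * (Real.sqrt (H * Real.log H) / Real.log Y) ^ p ≤ ∑ n ∈ Ioc Y (2 * Y),
          (max 0 (σ * ((((Ioc n (n + H)).filter Nat.Prime).card : ℝ) - H / Real.log n))) ^ p) :=
  Pool.Agent.H2.LP.final p hp

end Pool.Agent.Results.MP_31d0eb_nt.TwoSidedError
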