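import Mathlib
import Pool.Agent.H2.MU.Res
import Pool.Agent.H67.WP.Res

set_option autoImplicit false

open Filter Topology

namespace Pool.Agent.Results.MP_0c9a68_nt.WeakElliott

/-- The average over `n ≤ N` of `f (n + h 0) * g_1 (n + h 1) * ... * g_k (n + h k)`. -/
noncomputable def mean {k : ℕ} (h : Fin (k + 1) → ℤ) (f : ArithmeticFunction ℂ)
    (g : Fin k → ArithmeticFunction ℂ) (N : ℕ) : ℂ :=
  (1 / (N : ℂ)) * ∑ n ∈ Finset.Icc 1 N, f ((n : ℤ) + h 0).toNat *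
    ∏ i : Fin k, g i ((n : ℤ) + h i.succ).toNat

/-- Condition (N) of the problem. -/
def CondN (g : ℕ → ℂ) : Prop :=
  ∀ (r : ℕ) (χ : DirichletCharacter ℂ r), 0 < r →
    ∀ M : ℝ, ∃ X₀ : ℝ, ∀ X : ℝ, X₀ ≤ X → ∀ t : ℝ, |t| ≤ X →
      M ≤ ∑ p ∈ Finset.filter Nat.Prime (Finset.Iic ⌊X⌋₊),
        (1 - (g p * starRingEnd ℂ (χ (p : ZMod r) * (p : ℂ) ^ (Complex.I * (t : ℂ)))).re) / (p : ℝ)

/-- Condition (N) at the single scale `N` with the constant `A`: the square of the distance of `g` and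
`χ(n) n^(it)` up to `N` is at least `A` for all `χ` of modulus at most `A` and all `|t| ≤ N`. -/
def CondNAt (A N : ℕ) (g : ℕ → ℂ) : Prop :=
  ∀ (r : ℕ) (χ : DirichletCharacter ℂ r), 0 < r → r ≤ A → ∀ t : ℝ, |t| ≤ N →
    (A : ℝ) ≤ ∑ p ∈ (Finset.Icc 1 N).filter Nat.Prime,
      (1 - (g p * starRingEnd ℂ (χ (p : ZMod r) * (p : ℂ) ^ (Complex.I * (t : ℂ)))).re) / (p : ℝ)

/-- All values are in `[0, 1] μ_q` (`q = 2`: all real functions). -/
def FinOrd (q : ℕ) (g : ArithmeticFunction ℂ) : Prop := ∀ n, ∃ r : ℝ, 0 ≤ r ∧ g n ^ q = r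

/-- The Elliott conjecture in the weak form: for every number `k` of further functions and all shifts
`h` with `h i ≠ h 0` for `i ≠ 0` the averages are at most `1 - δ` in absolute value, (1) if the first
function `f` satisfies condition (N) and, in the case of three or more functions, has values in
`[0, 1] μ_q`, the other functions being arbitrary, (2) if `f ^ q` satisfies condition (N) and all the
other functions but one have values in `[0, 1] μ_q`. -/
theorem result (k q : ℕ) (hq : 1 ≤ q) (h : Fin (k + 1) → ℤ) (hh : ∀ i, i ≠ 0 → h i ≠ h 0) :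
    ∃ δ : ℝ, 0 < δ ∧
      -- single scale version, uniform in all functions
      (∃ A : ℕ, ∀ N : ℕ, A ≤ N → ∀ f : ArithmeticFunction ℂ, f.IsMultiplicative →
        (∀ n, ‖f n‖ ≤ 1) → ∀ g : Fin k → ArithmeticFunction ℂ, (∀ i, (g i).IsMultiplicative) →
          (∀ i n, ‖g i n‖ ≤ 1) →
          (CondNAt A N f ∧ (k = 1 ∨ FinOrd q f)) ∨
            (CondNAt A N (fun n => f n ^ q) ∧ ∃ j, ∀ i, i ≠ j → FinOrd q (g i)) →
          ‖mean h f g N‖ ≤ 1 - δ) ∧
      -- asymptotic version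
      (∀ f : ArithmeticFunction ℂ, f.IsMultiplicative → (∀ n, ‖f n‖ ≤ 1) → ∃ N₀ : ℕ, ∀ N : ℕ, N₀ ≤ N →
        ∀ g : Fin k → ArithmeticFunction ℂ, (∀ i, (g i).IsMultiplicative) →
          (∀ i n, ‖g i n‖ ≤ 1) →
          (CondN f ∧ (k = 1 ∨ FinOrd q f)) ∨
            (CondN (fun n => f n ^ q) ∧ ∃ j, ∀ i, i ≠ j → FinOrd q (g i)) →
          ‖mean h f g N‖ ≤ 1 - δ) := by
  obtain ⟨δ₁, A₁, hδ₁, H₁⟩ := Pool.H2.WE.resN k q hq h hh
  obtain ⟨δ₂, A₂, hδ₂, H₂⟩ := Pool.H67.WP.resC k q hq h hh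
  have hob : ∀ f : ArithmeticFunction ℂ, f.IsMultiplicative → (∀ n, ‖f n‖ ≤ 1) → Pool.H2.MR.OB (fun n => f n) :=
    fun f hf hf1 => ⟨hf.map_one, fun m n hmn => hf.map_mul_of_coprime hmn, hf1⟩
  refine ⟨min δ₁ δ₂, lt_min hδ₁ hδ₂, ⟨max A₁ A₂, ?_⟩, ?_⟩
  · intro N hN f hf hf1 g hg hg1 hc
    rcases hc with ⟨hc, hcase⟩ | ⟨hc, hcase⟩
    · refine (H₁ N ((le_max_left _ _).trans hN) (fun n => f n) (hob f hf hf1)
        (Pool.H2.WE.NA_mono hc (le_max_left _ _)) hcase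
        (fun i n => g i n) (fun i => hob (g i) (hg i) (hg1 i))).trans ?_
      have := min_le_left δ₁ δ₂
      linarith
    · refine (H₂ N ((le_max_right _ _).trans hN) (fun n => f n) (hob f hf hf1)
        (Pool.H2.WE.NA_mono hc (le_max_right _ _))
        (fun i n => g i n) (fun i => hob (g i) (hg i) (hg1 i)) hcase).trans ?_
      have := min_le_right δ₁ δ₂
      linarith
  · intro f hf hf1
    obtain ⟨N₁, hN₁⟩ : ∃ N₁ : ℕ, CondN f → ∀ N, N₁ ≤ N → Pool.H2.WE.NA A₁ N (fun n => f n) := by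
      by_cases hc : CondN f
      · obtain ⟨N₁, hN₁⟩ := Pool.H2.WE.NA_of_cond (fun n => f n) hc A₁
        exact ⟨N₁, fun _ => hN₁⟩
      · exact ⟨0, fun h => absurd h hc⟩
    obtain ⟨N₂, hN₂⟩ : ∃ N₂ : ℕ, CondN (fun n => f n ^ q) → ∀ N, N₂ ≤ N →
        Pool.H2.WE.NA A₂ N (fun n => f n ^ q) := by
      by_cases hc : CondN (fun n => f n ^ q)
      · obtain ⟨N₁, hN₁⟩ := Pool.H2.WE.NA_of_cond (fun n => f n ^ q) hc A₂
        exact ⟨N₁, fun _ => hN₁⟩
      · exact ⟨0, fun h => absurd h hc⟩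
    refine ⟨max (max A₁ A₂) (max N₁ N₂), ?_⟩
    intro N hN g hg hg1 hc
    have hNA := (le_max_left _ _).trans hN
    have hNN := (le_max_right _ _).trans hN
    rcases hc with ⟨hc, hcase⟩ | ⟨hc, hcase⟩
    · refine (H₁ N ((le_max_left _ _).trans hNA) (fun n => f n) (hob f hf hf1)
        (hN₁ hc N ((le_max_left _ _).trans hNN)) hcase
        (fun i n => g i n) (fun i => hob (g i) (hg i) (hg1 i))).trans ?_
      have := min_le_left δ₁ δ₂
      linarith
    · refine (H₂ N ((le_max_right _ _).trans hNA) (fun n => f n) (hob f hf hf1)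
        (hN₂ hc N ((le_max_right _ _).trans hNN))
        (fun i n => g i n) (fun i => hob (g i) (hg i) (hg1 i)) hcase).trans ?_
      have := min_le_right δ₁ δ₂
      linarith

end Pool.Agent.Results.MP_0c9a68_nt.WeakElliott
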